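import Mathlib

/-!
# Polynomials in zeta values and arithmetic functions
-/

set_option autoImplicit false

namespace Pool.Agent.R404.DZ

open Finset ArithmeticFunction

/-- the arithmetic function `n ^ k` -/
noncomputable def zf (k : ℕ) : ArithmeticFunction ℂ :=
  ⟨fun n => if n = 0 then 0 else (n : ℂ) ^ k, if_pos rfl⟩

lemma zf_apply {k n : ℕ} (hn : n ≠ 0) : zf k n = (n : ℂ) ^ k := by
  show (if n = 0 then (0 : ℂ) else (n : ℂ) ^ k) = _
  rw [if_neg hn]

lemma zf_mult (k : ℕ) : (zf k).IsMultiplicative := by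
  rw [IsMultiplicative.iff_ne_zero]
  refine ⟨by rw [zf_apply one_ne_zero]; simp, fun {m n} hm hn _ => ?_⟩
  rw [zf_apply (mul_ne_zero hm hn), zf_apply hm, zf_apply hn, Nat.cast_mul, mul_pow]

/-- evaluation at `n` -/
def ap (n : ℕ) : ArithmeticFunction ℂ →+ ℂ where
  toFun f := f n
  map_zero' := rfl
  map_add' _ _ := rfl

lemma mul_prime {f g : ArithmeticFunction ℂ} (hf : f.IsMultiplicative) (hg : g.IsMultiplicative)
    {p : ℕ} (hp : p.Prime) : (f * g) p = f p + g p := by
  rw [mul_apply, Nat.sum_divisorsAntidiagonal (f := fun a b => f a * g b), hp.divisors,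
    Finset.sum_pair hp.one_lt.ne, Nat.div_one, Nat.div_self hp.pos, hf.map_one, hg.map_one]
  ring

lemma pow_mult {f : ArithmeticFunction ℂ} (hf : f.IsMultiplicative) (k : ℕ) :
    (f ^ k).IsMultiplicative := by
  induction k with
  | zero => rw [pow_zero]; exact isMultiplicative_one
  | succ k ih => rw [pow_succ]; exact ih.mul hf

lemma pow_prime {f : ArithmeticFunction ℂ} (hf : f.IsMultiplicative) {p : ℕ} (hp : p.Prime)
    (k : ℕ) : (f ^ k) p = k * f p := by
  induction k with
  | zero =>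
    rw [pow_zero, one_apply, if_neg hp.one_lt.ne']
    simp
  | succ k ih =>
    rw [pow_succ, mul_prime (pow_mult hf k) hf hp, ih]
    push_cast
    ring

section

variable {J : ℕ}

/-- the arithmetic function of a monomial -/
noncomputable def mono (M : Fin (J + 1) →₀ ℕ) : ArithmeticFunction ℂ :=
  ∏ i : Fin (J + 1), zf (J - (i : ℕ)) ^ M i

lemma prod_mult (s : Finset (Fin (J + 1))) (M : Fin (J + 1) →₀ ℕ) :
    (∏ i ∈ s, zf (J - i) ^ M i).IsMultiplicative := by
  induction s using Finset.induction_on with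
  | empty => rw [Finset.prod_empty]; exact isMultiplicative_one
  | insert i s hi ih => rw [Finset.prod_insert hi]; exact (pow_mult (zf_mult _) _).mul ih

lemma prod_prime (s : Finset (Fin (J + 1))) (M : Fin (J + 1) →₀ ℕ) {p : ℕ} (hp : p.Prime) :
    (∏ i ∈ s, zf (J - i) ^ M i) p = ∑ i ∈ s, (M i : ℂ) * (p : ℂ) ^ (J - (i : ℕ)) := by
  induction s using Finset.induction_on with
  | empty => rw [Finset.prod_empty, Finset.sum_empty, one_apply, if_neg hp.one_lt.ne']
  | insert i s hi ih =>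
    rw [Finset.prod_insert hi, Finset.sum_insert hi, mul_prime (pow_mult (zf_mult _) _)
      (prod_mult s M) hp, ih, pow_prime (zf_mult _) hp, zf_apply hp.ne_zero]

lemma mono_mul (M : Fin (J + 1) →₀ ℕ) {p n : ℕ} (hp : p.Prime) (h : p.Coprime n) :
    mono M (p * n) = (∑ i, (M i : ℂ) * (p : ℂ) ^ (J - (i : ℕ))) * mono M n := by
  unfold mono
  rw [(prod_mult Finset.univ M).map_mul_of_coprime h, prod_prime Finset.univ M hp]

lemma mono_one (M : Fin (J + 1) →₀ ℕ) : mono M 1 = 1 := (prod_mult Finset.univ M).map_one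

/-- a bound for the growth -/
def Bd (J d : ℕ) (f : ArithmeticFunction ℂ) : Prop := ∀ n : ℕ, 1 ≤ n → ‖f n‖ ≤ (n : ℝ) ^ (J + d)

lemma Bd.one : Bd J 0 1 := by
  intro n hn
  rw [one_apply]
  have h1 : (1 : ℝ) ≤ (n : ℝ) ^ (J + 0) := one_le_pow₀ (by exact_mod_cast hn)
  split_ifs
  · simpa using h1
  · rw [norm_zero]
    linarith

lemma Bd.mulz {d : ℕ} {f : ArithmeticFunction ℂ} (h : Bd J d f) {k : ℕ} (hk : k ≤ J) :
    Bd J (d + 1) (f * zf k) := by
  intro n hn
  rw [mul_apply]
  have hn0 : (0 : ℝ) < n := by exact_mod_cast hn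
  have h1 : ∀ x ∈ Nat.divisorsAntidiagonal n, ‖f x.1 * zf k x.2‖ ≤ (n : ℝ) ^ (J + d) := by
    intro x hx
    rw [Nat.mem_divisorsAntidiagonal] at hx
    have hx1 : x.1 ≠ 0 := fun h0 => hx.2 (by rw [← hx.1, h0, zero_mul])
    have hx2 : x.2 ≠ 0 := fun h0 => hx.2 (by rw [← hx.1, h0, mul_zero])
    have h1x : 1 ≤ x.1 := Nat.one_le_iff_ne_zero.2 hx1
    have h2x : (1 : ℝ) ≤ x.2 := by exact_mod_cast Nat.one_le_iff_ne_zero.2 hx2
    rw [norm_mul, zf_apply hx2, norm_pow, Complex.norm_natCast]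
    calc ‖f x.1‖ * (x.2 : ℝ) ^ k ≤ (x.1 : ℝ) ^ (J + d) * (x.2 : ℝ) ^ (J + d) := by
          refine mul_le_mul (h x.1 h1x) (pow_le_pow_right₀ h2x (by omega)) (by positivity)
            (by positivity)
      _ = ((x.1 * x.2 : ℕ) : ℝ) ^ (J + d) := by push_cast; rw [mul_pow]
      _ = (n : ℝ) ^ (J + d) := by rw [hx.1]
  refine (norm_sum_le _ _).trans ((Finset.sum_le_sum h1).trans ?_)
  rw [Finset.sum_const, nsmul_eq_mul, ← Nat.map_div_right_divisors, Finset.card_map]
  calc ((n.divisors.card : ℕ) : ℝ) * (n : ℝ) ^ (J + d) ≤ (n : ℝ) * (n : ℝ) ^ (J + d) := by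
        refine mul_le_mul_of_nonneg_right ?_ (by positivity)
        exact_mod_cast Nat.card_divisors_le_self n
    _ = (n : ℝ) ^ (J + (d + 1)) := by rw [← add_assoc, pow_succ _ (J + d)]; ring

lemma Bd.mulpow {d : ℕ} {f : ArithmeticFunction ℂ} (h : Bd J d f) {k : ℕ} (hk : k ≤ J) (m : ℕ) :
    Bd J (d + m) (f * zf k ^ m) := by
  induction m with
  | zero => rw [pow_zero, mul_one]; exact h
  | succ m ih =>
    rw [pow_succ, ← mul_assoc]
    exact ih.mulz hk

lemma mono_bd (M : Fin (J + 1) →₀ ℕ) : Bd J (∑ i, M i) (mono M) := by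
  unfold mono
  have h : ∀ s : Finset (Fin (J + 1)), Bd J (∑ i ∈ s, M i) (∏ i ∈ s, zf (J - i) ^ M i) := by
    intro s
    induction s using Finset.induction_on with
    | empty => rw [Finset.prod_empty, Finset.sum_empty]; exact Bd.one
    | insert i s hi ih =>
      rw [Finset.prod_insert hi, Finset.sum_insert hi, mul_comm, add_comm]
      exact ih.mulpow (Nat.sub_le _ _) _
  exact h Finset.univ

/-- the arithmetic function of a polynomial -/
noncomputable def ev (P : MvPolynomial (Fin (J + 1)) ℤ) : ArithmeticFunction ℂ :=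
  MvPolynomial.aeval (fun i : Fin (J + 1) => zf (J - i)) P

lemma ev_apply (P : MvPolynomial (Fin (J + 1)) ℤ) (n : ℕ) :
    ev P n = ∑ M ∈ P.support, ((P.coeff M : ℤ) : ℂ) * mono M n := by
  have h1 : ev P = ∑ M ∈ P.support, P.coeff M • mono M := by
    unfold ev mono
    rw [MvPolynomial.aeval_def, MvPolynomial.eval₂_eq']
    refine Finset.sum_congr rfl fun M _ => ?_
    rw [zsmul_eq_mul]
    simp
  show ap n (ev P) = _
  rw [h1, map_sum]
  refine Finset.sum_congr rfl fun M _ => ?_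
  rw [map_zsmul, zsmul_eq_mul]
  rfl

/-- integral values -/
lemma mono_int (M : Fin (J + 1) →₀ ℕ) : ∀ n, ∃ z : ℤ, mono M n = z := by
  have hmul : ∀ f g : ArithmeticFunction ℂ, (∀ n, ∃ z : ℤ, f n = z) → (∀ n, ∃ z : ℤ, g n = z) →
      ∀ n, ∃ z : ℤ, (f * g) n = z := by
    intro f g hf hg n
    choose a ha using hf
    choose b hb using hg
    refine ⟨∑ x ∈ Nat.divisorsAntidiagonal n, a x.1 * b x.2, ?_⟩
    rw [mul_apply]
    push_cast
    exact Finset.sum_congr rfl fun x _ => by rw [ha, hb]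
  have hone : ∀ n, ∃ z : ℤ, (1 : ArithmeticFunction ℂ) n = z := by
    intro n
    rw [one_apply]
    split_ifs
    · exact ⟨1, by simp⟩
    · exact ⟨0, by simp⟩
  have hz : ∀ k n, ∃ z : ℤ, zf k n = z := by
    intro k n
    by_cases hn : n = 0
    · exact ⟨0, by rw [hn]; simp⟩
    · exact ⟨(n : ℤ) ^ k, by rw [zf_apply hn]; push_cast; rfl⟩
  have hpow : ∀ k m n, ∃ z : ℤ, (zf k ^ m) n = z := by
    intro k m
    induction m with
    | zero => rw [pow_zero]; exact hone
    | succ m ih => rw [pow_succ]; exact hmul _ _ ih (hz k)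
  unfold mono
  have h : ∀ s : Finset (Fin (J + 1)), ∀ n, ∃ z : ℤ, (∏ i ∈ s, zf (J - i) ^ M i) n = z := by
    intro s
    induction s using Finset.induction_on with
    | empty => rw [Finset.prod_empty]; exact hone
    | insert i s hi ih => rw [Finset.prod_insert hi]; exact hmul _ _ (hpow _ _) ih
  exact h Finset.univ

lemma ev_int (P : MvPolynomial (Fin (J + 1)) ℤ) (n : ℕ) : ∃ z : ℤ, ev P n = z := by
  choose z hz using fun M : Fin (J + 1) →₀ ℕ => mono_int M n
  refine ⟨∑ M ∈ P.support, P.coeff M * z M, ?_⟩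
  rw [ev_apply]
  push_cast
  exact Finset.sum_congr rfl fun M _ => by rw [hz]

lemma ev_bd (P : MvPolynomial (Fin (J + 1)) ℤ) {D : ℕ} (hD : P.totalDegree ≤ D) {Cs : ℝ}
    (hC : ∑ M ∈ P.support, |((P.coeff M : ℤ) : ℝ)| ≤ Cs) {n : ℕ} (hn : 1 ≤ n) :
    ‖ev P n‖ ≤ Cs * (n : ℝ) ^ (J + D) := by
  have hn1 : (1 : ℝ) ≤ n := by exact_mod_cast hn
  rw [ev_apply]
  refine (norm_sum_le _ _).trans ?_
  calc ∑ M ∈ P.support, ‖((P.coeff M : ℤ) : ℂ) * mono M n‖
      ≤ ∑ M ∈ P.support, |((P.coeff M : ℤ) : ℝ)| * (n : ℝ) ^ (J + D) := by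
        refine Finset.sum_le_sum fun M hM => ?_
        rw [norm_mul, Complex.norm_intCast]
        refine mul_le_mul_of_nonneg_left ((mono_bd M n hn).trans ?_) (abs_nonneg _)
        refine pow_le_pow_right₀ hn1 (Nat.add_le_add_left ?_ _)
        have h1 := MvPolynomial.le_totalDegree hM
        rw [Finsupp.sum_fintype _ _ (fun _ => rfl)] at h1
        exact h1.trans hD
    _ = (∑ M ∈ P.support, |((P.coeff M : ℤ) : ℝ)|) * (n : ℝ) ^ (J + D) := by rw [Finset.sum_mul]
    _ ≤ _ := mul_le_mul_of_nonneg_right hC (by positivity)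

/-- the Dirichlet series -/
lemma ev_series (P : MvPolynomial (Fin (J + 1)) ℤ) {N : ℕ} (hN : 2 ≤ N) :
    LSeriesHasSum (fun n => ev P n) ((N + J : ℕ) : ℂ)
      (MvPolynomial.aeval (fun i : Fin (J + 1) => riemannZeta ((N + (i : ℕ) : ℕ) : ℂ)) P) := by
  induction P using MvPolynomial.induction_on with
  | C a =>
    have h1 : (fun n => ev (J := J) (MvPolynomial.C a) n) = (a : ℂ) • (fun n : ℕ =>
        (1 : ArithmeticFunction ℂ) n) := by
      funext n
      unfold ev
      rw [MvPolynomial.aeval_C]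
      show ap n (algebraMap ℤ _ a) = (a : ℂ) * (1 : ArithmeticFunction ℂ) n
      rw [eq_intCast (algebraMap ℤ (ArithmeticFunction ℂ)) a, ← zsmul_one, map_zsmul, zsmul_eq_mul]
      rfl
    rw [h1, MvPolynomial.aeval_C, eq_intCast]
    have h2 : LSeriesHasSum (fun n : ℕ => (1 : ArithmeticFunction ℂ) n) ((N + J : ℕ) : ℂ) 1 := by
      have h3 : (fun n : ℕ => (1 : ArithmeticFunction ℂ) n) = LSeries.delta := by
        funext n
        rw [one_apply, LSeries.delta]
      rw [h3]
      unfold LSeriesHasSum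
      have h4 : LSeries.term LSeries.delta ((N + J : ℕ) : ℂ) = fun n => if n = 1 then 1 else 0 := by
        funext n
        exact LSeries.term_delta _ n
      rw [h4]
      exact hasSum_ite_eq 1 1
    have h5 := h2.smul (a : ℂ)
    simpa using h5
  | add P Q hP hQ =>
    have h1 : (fun n => ev (P + Q) n) = (fun n => ev P n) + fun n => ev Q n := by
      funext n
      unfold ev
      rw [map_add]
      rfl
    rw [h1, map_add]
    exact hP.add hQ
  | mul_X P i hP =>
    have h0 : LSeriesHasSum (fun n => zf (J - i) n) ((N + J : ℕ) : ℂ)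
        (riemannZeta ((N + (i : ℕ) : ℕ) : ℂ)) := by
      have h1 : LSeriesHasSum 1 ((N + (i : ℕ) : ℕ) : ℂ) (riemannZeta ((N + (i : ℕ) : ℕ) : ℂ)) := by
        refine LSeriesHasSum_one ?_
        rw [Complex.natCast_re]
        have : 1 < N + (i : ℕ) := by omega
        exact_mod_cast this
      unfold LSeriesHasSum at h1 ⊢
      convert h1 using 1
      funext n
      by_cases hn : n = 0
      · subst hn
        simp
      · rw [LSeries.term_of_ne_zero hn, LSeries.term_of_ne_zero hn, zf_apply hn]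
        have hn0 : (n : ℂ) ≠ 0 := by exact_mod_cast hn
        rw [Complex.cpow_natCast, Complex.cpow_natCast]
        have h2 : N + J = (N + (i : ℕ)) + (J - (i : ℕ)) := by
          have := i.2
          omega
        rw [h2, pow_add]
        simp only [Pi.one_apply]
        field_simp
    have h1 : (fun n => ev (P * MvPolynomial.X i) n) =
        fun n => ((ev P) * zf (J - i)) n := by
      funext n
      unfold ev
      rw [map_mul, MvPolynomial.aeval_X]
    rw [h1, map_mul, MvPolynomial.aeval_X]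
    exact LSeriesHasSum_mul hP h0

end

end Pool.Agent.R404.DZ
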