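import Pool.Agent.R404.DZ.A

/-!
# The first nonzero coefficient
-/

set_option autoImplicit false

namespace Pool.Agent.R404.DZ

open Finset ArithmeticFunction

variable {J : ℕ}

/-- Vandermonde -/
lemma vdm (q : Fin (J + 1) → ℕ) (hq : Function.Injective q) (β : Fin (J + 1) → ℂ) :
    ∃ t : Fin (J + 1) → ℂ, ∀ i : Fin (J + 1), ∑ j, t j * (q j : ℂ) ^ (J - (i : ℕ)) = β i := by
  set V : Matrix (Fin (J + 1)) (Fin (J + 1)) ℂ := Matrix.vandermonde fun j => (q j : ℂ) with hV
  have hdet : V.det ≠ 0 := by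
    rw [hV, Matrix.det_vandermonde_ne_zero_iff]
    exact fun a b h => hq (Nat.cast_injective (R := ℂ) h)
  have hu : IsUnit V.det := isUnit_iff_ne_zero.2 hdet
  set t : Fin (J + 1) → ℂ := Matrix.vecMul (fun i => β i.rev) V⁻¹ with ht
  refine ⟨t, fun i => ?_⟩
  have h1 : Matrix.vecMul t V = fun i => β i.rev := by
    rw [ht, Matrix.vecMul_vecMul, Matrix.nonsing_inv_mul V hu, Matrix.vecMul_one]
  have h2 : ∑ j, t j * V j i.rev = β i := by
    have h3 := congrFun h1 i.rev
    simp only [Fin.rev_rev] at h3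
    exact h3
  rw [← h2]
  refine Finset.sum_congr rfl fun j _ => ?_
  rw [hV, Matrix.vandermonde_apply, Fin.val_rev]
  congr 2
  omega

/-- affine functions of the exponents -/
noncomputable def af (A : ℂ × (Fin (J + 1) → ℂ)) (M : Fin (J + 1) →₀ ℕ) : ℂ :=
  A.1 + ∑ i, A.2 i * (M i : ℂ)

/-- weighted sums -/
noncomputable def SS {β : Type} (P : MvPolynomial (Fin (J + 1)) ℤ) (A : β → ℂ × (Fin (J + 1) → ℂ))
    (B : Finset β) (n : ℕ) : ℂ :=
  ∑ M ∈ P.support, ((P.coeff M : ℤ) : ℂ) * (∏ b ∈ B, af (A b) M) * mono M n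

/-- numbers composed of the first primes -/
def Good (J x k n : ℕ) : Prop :=
  n ≠ 0 ∧ (∀ m, k * (J + 1) ≤ m → (Nat.nth Nat.Prime m).Coprime n) ∧ n ≤ x ^ k

lemma Good.up {x k n : ℕ} (hx : 1 ≤ x) (h : Good J x k n) : Good J x (k + 1) n := by
  obtain ⟨h1, h2, h3⟩ := h
  refine ⟨h1, fun m hm => h2 m (by nlinarith), h3.trans (Nat.pow_le_pow_right hx (Nat.le_succ k))⟩

lemma Good.mul {x k n : ℕ} (h : Good J x k n) (j : ℕ) (hj : j < J + 1)
    (hx : Nat.nth Nat.Prime (k * (J + 1) + j) ≤ x) :
    Good J x (k + 1) (Nat.nth Nat.Prime (k * (J + 1) + j) * n) := by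
  obtain ⟨h1, h2, h3⟩ := h
  have hp : (Nat.nth Nat.Prime (k * (J + 1) + j)).Prime := Nat.prime_nth_prime _
  refine ⟨mul_ne_zero hp.ne_zero h1, fun m hm => ?_, ?_⟩
  · refine Nat.Coprime.mul_right ?_ (h2 m (by nlinarith))
    rw [Nat.coprime_primes (Nat.prime_nth_prime _) hp]
    intro h
    have h4 := Nat.nth_injective Nat.infinite_setOfPred_prime h
    have h5 : (k + 1) * (J + 1) = k * (J + 1) + (J + 1) := by ring
    omega
  · rw [pow_succ, mul_comm]
    exact Nat.mul_le_mul h3 hx

theorem nv {β : Type} [DecidableEq β] (P : MvPolynomial (Fin (J + 1)) ℤ)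
    (A : β → ℂ × (Fin (J + 1) → ℂ)) (D x : ℕ) (hx1 : 1 ≤ x)
    (hx : ∀ m, m < D * (J + 1) → Nat.nth Nat.Prime m ≤ x)
    (hz : ∀ n, 1 ≤ n → n ≤ x ^ D → ev P n = 0) : ∀ t, t ≤ D → ∀ B : Finset β, B.card ≤ t →
    ∀ n, Good J x (D - t) n → SS P A B n = 0 := by
  have hempty : ∀ t, t ≤ D → ∀ n, Good J x (D - t) n → SS P A (∅ : Finset β) n = 0 := by
    intro t ht n hn
    have h1 := hz n (Nat.one_le_iff_ne_zero.2 hn.1) (hn.2.2.trans
      (Nat.pow_le_pow_right hx1 (Nat.sub_le _ _)))
    rw [ev_apply] at h1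
    unfold SS
    simpa using h1
  intro t
  induction t with
  | zero =>
    intro _ B hB n hn
    rw [Nat.le_zero, Finset.card_eq_zero] at hB
    rw [hB]
    exact hempty 0 (Nat.zero_le _) n hn
  | succ t ih =>
    intro ht B hB n hn
    rcases Finset.eq_empty_or_nonempty B with hB0 | ⟨b, hb⟩
    · rw [hB0]
      exact hempty (t + 1) ht n hn
    · set B' := B.erase b with hB'
      have hcard : B'.card ≤ t := by
        rw [hB', Finset.card_erase_of_mem hb]
        omega
      have hins : insert b B' = B := Finset.insert_erase hb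
      have hnb : b ∉ B' := Finset.notMem_erase b B
      have hk : D - t = (D - (t + 1)) + 1 := by omega
      set k := D - (t + 1) with hkdef
      have hlt : ∀ j, j < J + 1 → k * (J + 1) + j < D * (J + 1) := by
        intro j hj
        have h1 : k + 1 ≤ D := by omega
        have h2 : (k + 1) * (J + 1) ≤ D * (J + 1) := Nat.mul_le_mul_right _ h1
        have h3 : (k + 1) * (J + 1) = k * (J + 1) + (J + 1) := by ring
        omega
      set q : Fin (J + 1) → ℕ := fun j => Nat.nth Nat.Prime (k * (J + 1) + (j : ℕ)) with hq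
      have hqinj : Function.Injective q := by
        intro a c h
        have h4 := Nat.nth_injective Nat.infinite_setOfPred_prime h
        apply Fin.ext
        omega
      obtain ⟨τ, hτ⟩ := vdm q hqinj (A b).2
      have h0 : SS P A B' n = 0 := ih (by omega) B' hcard n (by rw [hk]; exact hn.up hx1)
      have hj : ∀ j, SS P A B' (q j * n) = 0 := fun j => ih (by omega) B' hcard _ (by
        rw [hk]
        exact hn.mul j j.2 (hx _ (hlt j j.2)))
      have hexp : SS P A B n = (A b).1 * SS P A B' n + ∑ j, τ j * SS P A B' (q j * n) := by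
        unfold SS
        rw [Finset.mul_sum]
        simp only [Finset.mul_sum]
        rw [Finset.sum_comm, ← Finset.sum_add_distrib]
        refine Finset.sum_congr rfl fun M _ => ?_
        rw [← hins, Finset.prod_insert hnb]
        have h5 : ∀ j, mono M (q j * n) =
            (∑ i : Fin (J + 1), (M i : ℂ) * (q j : ℂ) ^ (J - (i : ℕ))) * mono M n := fun j =>
          mono_mul M (Nat.prime_nth_prime _) (hn.2.1 _ (Nat.le_add_right _ _))
        have h6 : ∑ i, (A b).2 i * (M i : ℂ) =
            ∑ j, τ j * ∑ i : Fin (J + 1), (M i : ℂ) * (q j : ℂ) ^ (J - (i : ℕ)) := by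
          simp only [Finset.mul_sum]
          rw [Finset.sum_comm]
          refine Finset.sum_congr rfl fun i _ => ?_
          rw [← hτ i, Finset.sum_mul]
          exact Finset.sum_congr rfl fun j _ => by ring
        unfold af
        rw [h6]
        simp only [h5]
        rw [add_mul, mul_add, add_mul, Finset.sum_mul, Finset.mul_sum, Finset.sum_mul]
        congr 1
        · ring
        · exact Finset.sum_congr rfl fun j _ => by ring
      rw [hexp, h0, mul_zero, zero_add]
      exact Finset.sum_eq_zero fun j _ => by rw [hj j, mul_zero]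

/-- **the first nonzero coefficient** -/
theorem first (P : MvPolynomial (Fin (J + 1)) ℤ) (hP : P ≠ 0) (D x : ℕ) (hD : P.totalDegree ≤ D)
    (hx1 : 1 ≤ x) (hx : ∀ m, m < D * (J + 1) → Nat.nth Nat.Prime m ≤ x) :
    ∃ n, 1 ≤ n ∧ n ≤ x ^ D ∧ ev P n ≠ 0 := by
  classical
  by_contra hcon
  push Not at hcon
  have hne : P.support.Nonempty := by
    rw [Finset.nonempty_iff_ne_empty]
    intro h
    exact hP (MvPolynomial.support_eq_empty.1 h)
  obtain ⟨M0, hM0, hmax⟩ := Finset.exists_max_image P.support (fun M => ∑ i, M i) hne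
  set A : (Σ _ : Fin (J + 1), ℕ) → ℂ × (Fin (J + 1) → ℂ) :=
    fun b => (-(b.2 : ℂ), Pi.single b.1 1) with hA
  set B : Finset (Σ _ : Fin (J + 1), ℕ) := Finset.univ.sigma fun i => Finset.range (M0 i) with hB
  have hcard : B.card ≤ D := by
    rw [hB, Finset.card_sigma]
    simp only [Finset.card_range]
    have h1 := MvPolynomial.le_totalDegree hM0
    rw [Finsupp.sum_fintype _ _ (fun _ => rfl)] at h1
    exact h1.trans hD
  have haf : ∀ (b : Σ _ : Fin (J + 1), ℕ) (M : Fin (J + 1) →₀ ℕ),
      af (A b) M = (M b.1 : ℂ) - (b.2 : ℂ) := by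
    intro b M
    unfold af
    rw [hA]
    simp only
    rw [Finset.sum_eq_single b.1]
    · rw [Pi.single_eq_same]
      ring
    · intro i _ hi
      rw [Pi.single_eq_of_ne hi, zero_mul]
    · intro h
      exact absurd (Finset.mem_univ _) h
  have h1 := nv P A D x hx1 hx (fun n h1 h2 => hcon n h1 h2) D le_rfl B hcard 1 (by
    rw [Nat.sub_self]
    exact ⟨one_ne_zero, fun m _ => Nat.coprime_one_right _, by simp⟩)
  unfold SS at h1
  rw [Finset.sum_eq_single M0] at h1
  · rw [mono_one, mul_one] at h1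
    rcases mul_eq_zero.1 h1 with h2 | h2
    · exact (MvPolynomial.mem_support_iff.1 hM0) (by exact_mod_cast h2)
    · rw [Finset.prod_eq_zero_iff] at h2
      obtain ⟨b, hb, h3⟩ := h2
      rw [haf, sub_eq_zero] at h3
      rw [hB, Finset.mem_sigma, Finset.mem_range] at hb
      have h4 : M0 b.1 = b.2 := by exact_mod_cast h3
      omega
  · intro M hM hne'
    have h2 : ∃ i, M i < M0 i := by
      by_contra hcon2
      push Not at hcon2
      apply hne'
      have h3 := hmax M hM
      have h4 : ∀ i ∈ Finset.univ, M0 i = M i := by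
        rw [← Finset.sum_eq_sum_iff_of_le fun i _ => hcon2 i]
        exact le_antisymm (Finset.sum_le_sum fun i _ => hcon2 i) h3
      exact Finsupp.ext fun i => (h4 i (Finset.mem_univ i)).symm
    obtain ⟨i, hi⟩ := h2
    have h3 : ∏ b ∈ B, af (A b) M = 0 := by
      refine Finset.prod_eq_zero (i := (⟨i, M i⟩ : Σ _ : Fin (J + 1), ℕ)) ?_ ?_
      · rw [hB, Finset.mem_sigma, Finset.mem_range]
        exact ⟨Finset.mem_univ _, hi⟩
      · rw [haf]
        simp
    rw [h3, mul_zero, zero_mul]
  · intro h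
    exact absurd hM0 h

end Pool.Agent.R404.DZ
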