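import Pool.Agent.R404.DZ.B
import Pool.Agent.R404.MZ.Asy

/-!
# Lower bounds for polynomials in zeta values
-/

set_option autoImplicit false

namespace Pool.Agent.R404.DZ

open Finset ArithmeticFunction
open Pool.Agent.R404.MZ (two_pow_le ze2_le rpow_large evA evB asyH)
open Pool.Agent.Y760.ZG (tl tail_bd tail_sum mz)
open Pool.Agent.Y777.AM (ht)

/-- the zeta value -/
noncomputable def zv (k : ℕ) : ℝ := ∑' m : ℕ, 1 / ((m + 1 : ℕ) : ℝ) ^ k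

lemma zv_cast {k : ℕ} (hk : 1 < k) : ((zv k : ℝ) : ℂ) = riemannZeta (k : ℂ) := by
  have h1 : zv k = ∑' n : ℕ, 1 / (n : ℝ) ^ k := by
    rw [(Real.summable_one_div_nat_pow.2 hk).tsum_eq_zero_add]
    have : (0 : ℝ) ^ k = 0 := zero_pow (by omega)
    rw [Nat.cast_zero, this, div_zero, zero_add]
    rfl
  rw [h1, zeta_nat_eq_tsum_of_gt_one hk, Complex.ofReal_tsum]
  refine tsum_congr fun n => ?_
  push_cast
  rfl

variable {J : ℕ}

lemma aeval_cast (P : MvPolynomial (Fin (J + 1)) ℤ) {N : ℕ} (hN : 2 ≤ N) :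
    ((MvPolynomial.aeval (fun i : Fin (J + 1) => zv (N + (i : ℕ))) P : ℝ) : ℂ) =
      MvPolynomial.aeval (fun i : Fin (J + 1) => riemannZeta ((N + (i : ℕ) : ℕ) : ℂ)) P := by
  have h1 := MvPolynomial.aeval_algebraMap_apply (R := ℤ) (A := ℝ) (B := ℂ)
    (fun i : Fin (J + 1) => zv (N + (i : ℕ))) P
  rw [Complex.coe_algebraMap] at h1
  rw [← h1]
  congr 2
  funext i
  simp only [Function.comp_apply]
  exact zv_cast (by omega)

/-- **the explicit lower bound** -/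
theorem explicitP (N D x : ℕ) (P : MvPolynomial (Fin (J + 1)) ℤ) (hP : P ≠ 0)
    (hD : P.totalDegree ≤ D) (hx1 : 1 ≤ x) (hx : ∀ m, m < D * (J + 1) → Nat.nth Nat.Prime m ≤ x)
    (Cs : ℝ) (hCs : 1 ≤ Cs) (hC : ∑ M ∈ P.support, |((P.coeff M : ℤ) : ℝ)| ≤ Cs) (hN : D + 2 ≤ N)
    (hcond : 4 * Cs * (((x ^ D : ℕ) : ℝ) + 1) ^ (D + 2 + J) ≤ 2 ^ (N / x ^ D)) :
    (2 * ((x ^ D : ℕ) : ℝ) ^ (N + J))⁻¹ ≤
      |(MvPolynomial.aeval (fun i : Fin (J + 1) => zv (N + (i : ℕ))) P : ℝ)| := by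
  classical
  set K : ℕ := x ^ D with hK
  have hex : ∃ n, 1 ≤ n ∧ n ≤ K ∧ ev P n ≠ 0 := first P hP D x hD hx1 hx
  have hfind := Nat.find_spec hex
  set m := Nat.find hex with hm
  have hmin : ∀ i, i < m → i = 0 ∨ ev P i = 0 := by
    intro i h2
    by_contra h3
    push Not at h3
    exact Nat.find_min hex h2 ⟨Nat.one_le_iff_ne_zero.2 h3.1, by omega, h3.2⟩
  obtain ⟨hm1, hmK, hmE⟩ := hfind
  have hCs0 : 0 ≤ Cs := zero_le_one.trans hCs
  have hser := ev_series P (N := N) (by omega)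
  rw [← aeval_cast P (by omega)] at hser
  set V : ℝ := MvPolynomial.aeval (fun i : Fin (J + 1) => zv (N + (i : ℕ))) P with hV
  unfold LSeriesHasSum at hser
  set F : ℕ → ℂ := LSeries.term (fun n => ev P n) ((N + J : ℕ) : ℂ) with hF
  have hF1 : ∀ n, 1 ≤ n → F n = ev P n / (n : ℂ) ^ (N + J) := by
    intro n hn
    rw [hF, LSeries.term_of_ne_zero (by omega), Complex.cpow_natCast]
  have hFn : ∀ n, 1 ≤ n → ‖F n‖ = ‖ev P n‖ / (n : ℝ) ^ (N + J) := by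
    intro n hn
    rw [hF1 n hn, norm_div, norm_pow, Complex.norm_natCast]
  have hbd : ∀ n, 1 ≤ n → |‖F n‖| ≤ Cs * (n : ℝ) ^ D * ((n : ℝ) ^ N)⁻¹ := by
    intro n hn
    have hn0 : (0 : ℝ) < n := by exact_mod_cast hn
    rw [abs_of_nonneg (norm_nonneg _), hFn n hn]
    calc ‖ev P n‖ / (n : ℝ) ^ (N + J) ≤ Cs * (n : ℝ) ^ (J + D) / (n : ℝ) ^ (N + J) :=
          div_le_div_of_nonneg_right (ev_bd P hD hC hn) (by positivity)
      _ = _ := by
          rw [pow_add _ J D, pow_add _ N J]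
          field_simp
  have hsumn := tail_sum (f := fun n => ‖F n‖) hCs0 (A := D) (σ := N) hN hbd (k := m + 1) (by omega)
  have hzero : ∑ i ∈ Finset.range (m + 1), F i = F m := by
    rw [Finset.sum_range_succ, Finset.sum_eq_zero, zero_add]
    intro i hi
    rcases hmin i (Finset.mem_range.1 hi) with h | h
    · rw [h, hF]
      exact LSeries.term_zero _ _
    · by_cases h0 : i = 0
      · rw [h0, hF]
        exact LSeries.term_zero _ _
      · rw [hF1 i (Nat.one_le_iff_ne_zero.2 h0), h, zero_div]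
  have hsplit : (V : ℂ) = F m + ∑' i, F (i + (m + 1)) := by
    rw [← hser.tsum_eq, ← hser.summable.sum_add_tsum_nat_add (m + 1), hzero]
  have htail : ‖∑' i, F (i + (m + 1))‖ ≤ 2 * Cs * ((m + 1 : ℕ) : ℝ) ^ (D + 2) *
      (((m + 1 : ℕ) : ℝ) ^ N)⁻¹ := by
    have h1 : ‖∑' i, F (i + (m + 1))‖ ≤ tl (fun n => ‖F n‖) (m + 1) := norm_tsum_le_tsum_norm hsumn
    have h2 := tail_bd (f := fun n => ‖F n‖) hCs0 (A := D) (σ := N) hN hbd (k := m + 1) (by omega)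
    have h3 := ze2_le
    have h4 : 0 ≤ ((m + 1 : ℕ) : ℝ) ^ (D + 2) * (((m + 1 : ℕ) : ℝ) ^ N)⁻¹ := by positivity
    have h5 : Cs * Pool.Agent.Y760.ZG.ze 2 ≤ 2 * Cs := by nlinarith
    calc ‖∑' i, F (i + (m + 1))‖ ≤ |tl (fun n => ‖F n‖) (m + 1)| := h1.trans (le_abs_self _)
      _ ≤ Cs * Pool.Agent.Y760.ZG.ze 2 * ((m + 1 : ℕ) : ℝ) ^ (D + 2) *
          (((m + 1 : ℕ) : ℝ) ^ N)⁻¹ := h2
      _ = (Cs * Pool.Agent.Y760.ZG.ze 2) * (((m + 1 : ℕ) : ℝ) ^ (D + 2) *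
          (((m + 1 : ℕ) : ℝ) ^ N)⁻¹) := by ring
      _ ≤ (2 * Cs) * (((m + 1 : ℕ) : ℝ) ^ (D + 2) * (((m + 1 : ℕ) : ℝ) ^ N)⁻¹) :=
          mul_le_mul_of_nonneg_right h5 h4
      _ = _ := by ring
  have hm0 : (0 : ℝ) < m := by exact_mod_cast hm1
  have hmKr : (m : ℝ) ≤ K := by exact_mod_cast hmK
  have hlow : ((m : ℝ) ^ (N + J))⁻¹ ≤ ‖F m‖ := by
    obtain ⟨z, hz⟩ := ev_int P m
    rw [hFn m hm1, hz, Complex.norm_intCast, inv_eq_one_div]
    refine div_le_div_of_nonneg_right ?_ (by positivity)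
    have h3 : z ≠ 0 := by
      rintro rfl
      apply hmE
      rw [hz, Int.cast_zero]
    rw [← Int.cast_abs]
    exact_mod_cast Int.one_le_abs h3
  have htail2 : ‖∑' i, F (i + (m + 1))‖ ≤ ((m : ℝ) ^ (N + J))⁻¹ / 2 := by
    refine htail.trans ?_
    have h3 := two_pow_le (M := N) (K := K) (m := m) hm1 hmK
    have h4 : (((m + 1 : ℕ) : ℝ)) ^ (D + 2) * (m : ℝ) ^ J ≤ ((K : ℝ) + 1) ^ (D + 2 + J) := by
      have h5 : ((m + 1 : ℕ) : ℝ) ≤ (K : ℝ) + 1 := by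
        push_cast
        linarith
      rw [pow_add _ (D + 2)]
      refine mul_le_mul (pow_le_pow_left₀ (by positivity) h5 _)
        (pow_le_pow_left₀ hm0.le (by linarith) _) (by positivity) (by positivity)
    have h7 : 4 * Cs * (((m + 1 : ℕ) : ℝ) ^ (D + 2) * (m : ℝ) ^ J) * (m : ℝ) ^ N ≤
        ((m + 1 : ℕ) : ℝ) ^ N := by
      refine le_trans ?_ h3
      refine mul_le_mul_of_nonneg_right (le_trans ?_ hcond) (by positivity)
      exact mul_le_mul_of_nonneg_left h4 (by positivity)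
    have h8 : (0 : ℝ) < ((m + 1 : ℕ) : ℝ) ^ N := by positivity
    rw [← div_eq_mul_inv, div_le_iff₀ h8, inv_eq_one_div, div_div, div_mul_eq_mul_div, one_mul,
      le_div_iff₀ (by positivity), pow_add _ N J]
    calc 2 * Cs * ((m + 1 : ℕ) : ℝ) ^ (D + 2) * ((m : ℝ) ^ N * (m : ℝ) ^ J * 2)
        = 4 * Cs * (((m + 1 : ℕ) : ℝ) ^ (D + 2) * (m : ℝ) ^ J) * (m : ℝ) ^ N := by ring
      _ ≤ _ := h7
  have h11 : ((m : ℝ) ^ (N + J))⁻¹ / 2 ≤ |V| := by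
    have h12 : ‖F m‖ ≤ ‖(V : ℂ)‖ + ‖∑' i, F (i + (m + 1))‖ := by
      have h13 : F m = (V : ℂ) - ∑' i, F (i + (m + 1)) := by rw [hsplit]; ring
      rw [h13]
      exact norm_sub_le _ _
    rw [Complex.norm_real, Real.norm_eq_abs] at h12
    linarith
  refine le_trans ?_ h11
  rw [mul_inv, mul_comm, ← div_eq_mul_inv]
  refine div_le_div_of_nonneg_right ?_ (by norm_num)
  refine inv_anti₀ (by positivity) ?_
  exact pow_le_pow_left₀ hm0.le hmKr _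

/-- many primes -/
lemma pi_large (η : ℝ) (hη : 0 < η) (hη1 : η ≤ 1) :
    ∃ x0 : ℕ, ∀ x : ℕ, x0 ≤ x → (x : ℝ) ^ (1 - η) ≤ (Nat.primeCounting x : ℝ) := by
  have hl2 : 0 < Real.log 2 := Real.log_pos (by norm_num)
  obtain ⟨x0, h0⟩ := rpow_large (e := η / 2) (by linarith) ((2 / η + 4) / Real.log 2)
  refine ⟨max x0 2, fun x hx => ?_⟩
  have hx2 : (2 : ℝ) ≤ x := by exact_mod_cast (le_max_right _ _).trans hx
  have hxp : (0 : ℝ) < x := by linarith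
  have h1 := h0 x ((le_max_left _ _).trans hx)
  rw [div_le_iff₀ hl2] at h1
  have hlogx : 0 < Real.log x := Real.log_pos (by linarith)
  refine le_trans ?_ (Chebyshev.pi_ge x)
  rw [le_div_iff₀ hlogx]
  have hlog1 : Real.log x ≤ (x : ℝ) ^ (η / 2) / (η / 2) :=
    Real.log_le_rpow_div hxp.le (by linarith)
  have hlog2 : Real.log ((x : ℝ) + 1) ≤ 4 * (x : ℝ) ^ (1 / 2 : ℝ) := by
    have h2 : Real.log ((x : ℝ) + 1) ≤ ((x : ℝ) + 1) ^ (1 / 2 : ℝ) / (1 / 2) :=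
      Real.log_le_rpow_div (by linarith) (by norm_num)
    have h3 : ((x : ℝ) + 1) ^ (1 / 2 : ℝ) ≤ (4 * (x : ℝ)) ^ (1 / 2 : ℝ) :=
      Real.rpow_le_rpow (by linarith) (by linarith) (by norm_num)
    have h4 : (4 * (x : ℝ)) ^ (1 / 2 : ℝ) = 2 * (x : ℝ) ^ (1 / 2 : ℝ) := by
      rw [Real.mul_rpow (by norm_num) hxp.le]
      congr 1
      rw [show (4 : ℝ) = 2 ^ (2 : ℝ) by norm_num, ← Real.rpow_mul (by norm_num)]
      norm_num
    linarith
  have hsq : (x : ℝ) ^ (1 / 2 : ℝ) ≤ (x : ℝ) ^ (1 - η / 2) :=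
    Real.rpow_le_rpow_of_exponent_le (by linarith) (by linarith)
  have h5 : (x : ℝ) ^ (1 - η) * Real.log x ≤ 2 / η * (x : ℝ) ^ (1 - η / 2) := by
    calc (x : ℝ) ^ (1 - η) * Real.log x ≤ (x : ℝ) ^ (1 - η) * ((x : ℝ) ^ (η / 2) / (η / 2)) :=
          mul_le_mul_of_nonneg_left hlog1 (by positivity)
      _ = 2 / η * ((x : ℝ) ^ (1 - η) * (x : ℝ) ^ (η / 2)) := by field_simp
      _ = _ := by
          rw [← Real.rpow_add hxp]
          congr 2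
          ring
  have h6 : (2 / η + 4) * (x : ℝ) ^ (1 - η / 2) ≤ x * Real.log 2 := by
    have h7 : (x : ℝ) = (x : ℝ) ^ (η / 2) * (x : ℝ) ^ (1 - η / 2) := by
      rw [← Real.rpow_add hxp]
      norm_num
    calc (2 / η + 4) * (x : ℝ) ^ (1 - η / 2)
        ≤ ((x : ℝ) ^ (η / 2) * Real.log 2) * (x : ℝ) ^ (1 - η / 2) :=
          mul_le_mul_of_nonneg_right h1 (by positivity)
      _ = ((x : ℝ) ^ (η / 2) * (x : ℝ) ^ (1 - η / 2)) * Real.log 2 := by ring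
      _ = _ := by rw [← h7]
  linarith

/-- the first primes are small -/
lemma primes_small (D : ℕ) (θ θ' : ℝ) (hθ : 0 < θ) (hθθ : θ < θ') :
    ∃ N0 : ℕ, ∀ N : ℕ, N0 ≤ N → ∀ J : ℕ, (J : ℝ) ≤ (N : ℝ) ^ θ →
      ∀ m, m < D * (J + 1) → Nat.nth Nat.Prime m ≤ ⌊(N : ℝ) ^ θ'⌋₊ := by
  set η : ℝ := (θ' - θ) / (2 * θ') with hη
  have hθ'0 : 0 < θ' := by linarith
  have hη0 : 0 < η := div_pos (by linarith) (by linarith)
  have hη1 : η ≤ 1 := by
    rw [hη, div_le_one (by linarith)]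
    linarith
  have hη2 : θ' * (1 - η) - θ = (θ' - θ) / 2 := by
    rw [hη]
    field_simp
    ring
  obtain ⟨x0, hx0⟩ := pi_large η hη0 hη1
  obtain ⟨N1, h1⟩ := rpow_large hθ'0 ((x0 : ℝ) + 2)
  obtain ⟨N2, h2⟩ := rpow_large (e := (θ' - θ) / 2) (by linarith) (4 * D)
  refine ⟨max (max N1 N2) 1, fun N hN J hJ m hm => ?_⟩
  have hN1 : (1 : ℝ) ≤ N := by exact_mod_cast (le_max_right _ _).trans hN
  have hNp : (0 : ℝ) < N := by linarith
  have h1N := h1 N ((le_max_left _ _).trans ((le_max_left _ _).trans hN))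
  have h2N := h2 N ((le_max_right _ _).trans ((le_max_left _ _).trans hN))
  set Y : ℝ := (N : ℝ) ^ θ' with hY
  have hfl : Y < (⌊Y⌋₊ : ℝ) + 1 := Nat.lt_floor_add_one Y
  have hx0' : x0 ≤ ⌊Y⌋₊ := by
    have h3 : (x0 : ℝ) ≤ (⌊Y⌋₊ : ℝ) := by linarith
    exact_mod_cast h3
  have h3 := hx0 ⌊Y⌋₊ hx0'
  have h4 : Y / 2 ≤ (⌊Y⌋₊ : ℝ) := by
    have : (0 : ℝ) ≤ x0 := Nat.cast_nonneg _
    linarith
  have h5 : (D : ℝ) * (J + 1) ≤ (⌊Y⌋₊ : ℝ) ^ (1 - η) := by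
    have h6 : (Y / 2) ^ (1 - η) ≤ (⌊Y⌋₊ : ℝ) ^ (1 - η) :=
      Real.rpow_le_rpow (by positivity) h4 (by linarith)
    refine le_trans ?_ h6
    have h7 : (Y / 2) ^ (1 - η) = Y ^ (1 - η) / 2 ^ (1 - η) := Real.div_rpow (by positivity)
      (by norm_num) _
    have h8 : (2 : ℝ) ^ (1 - η) ≤ 2 := by
      calc (2 : ℝ) ^ (1 - η) ≤ (2 : ℝ) ^ (1 : ℝ) :=
            Real.rpow_le_rpow_of_exponent_le (by norm_num) (by linarith)
        _ = 2 := Real.rpow_one _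
    have h9 : Y ^ (1 - η) = (N : ℝ) ^ ((θ' - θ) / 2) * (N : ℝ) ^ θ := by
      rw [hY, ← Real.rpow_mul hNp.le, ← Real.rpow_add hNp]
      congr 1
      linarith
    have h10 : Y ^ (1 - η) / 2 ≤ Y ^ (1 - η) / 2 ^ (1 - η) :=
      div_le_div_of_nonneg_left (by positivity) (by positivity) h8
    rw [h7]
    refine le_trans ?_ h10
    rw [h9]
    have h11 : (1 : ℝ) ≤ (N : ℝ) ^ θ := Real.one_le_rpow hN1 hθ.le
    have h12 : (4 * D) * (N : ℝ) ^ θ ≤ (N : ℝ) ^ ((θ' - θ) / 2) * (N : ℝ) ^ θ :=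
      mul_le_mul_of_nonneg_right h2N (by positivity)
    have h13 : (D : ℝ) * (J + 1) ≤ D * (2 * (N : ℝ) ^ θ) :=
      mul_le_mul_of_nonneg_left (by linarith) (Nat.cast_nonneg D)
    linarith
  have h6 : ((D * (J + 1) : ℕ) : ℝ) ≤ (Nat.primeCounting ⌊Y⌋₊ : ℝ) := by
    push_cast
    exact h5.trans h3
  have h7 : D * (J + 1) ≤ Nat.primeCounting ⌊Y⌋₊ := by exact_mod_cast h6
  have h8 : m < Nat.count Nat.Prime (⌊Y⌋₊ + 1) := by
    rw [← Nat.primeCounting', ← Nat.primeCounting]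
    omega
  exact Nat.lt_succ_iff.1 (Nat.nth_lt_of_lt_count h8)

/-- **the asymptotic lower bound** -/
theorem asyP (D : ℕ) (θ γ ε κ C : ℝ) (hθ : 0 < θ) (hθD : (D + 1) * θ < 1) (hγ : γ + D * θ < 1)
    (hε : D * θ < ε) :
    ∃ N0 : ℕ, ∀ N : ℕ, N0 ≤ N → ∀ J : ℕ, (J : ℝ) ≤ (N : ℝ) ^ θ →
      ∀ P : MvPolynomial (Fin (J + 1)) ℤ, P ≠ 0 → P.totalDegree ≤ D →
      ∑ M ∈ P.support, |((P.coeff M : ℤ) : ℝ)| ≤ (2 : ℝ) ^ ((N : ℝ) ^ γ) →
      ∀ H : Finset (List ℕ), (∀ h ∈ H, (∀ m ∈ h, 1 ≤ m) ∧ (∀ x ∈ h.head?, 2 ≤ x) ∧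
        (h.sum : ℝ) ≤ κ * N ∧ ε * N ≤ ht h) → ∀ b : List ℕ → ℝ, (∀ h ∈ H, |b h| ≤ C ^ N) →
      ((N : ℝ) ^ (ε * N))⁻¹ <
        |(MvPolynomial.aeval (fun i : Fin (J + 1) => zv (N + (i : ℕ))) P : ℝ) -
          ∑ h ∈ H, b h * mz h| := by
  have hD0 : (0 : ℝ) ≤ D := Nat.cast_nonneg D
  obtain ⟨δ, hδ1, hδ2⟩ := exists_between (lt_min hε (by linarith : D * θ < 1 - γ))
  rw [lt_min_iff] at hδ2
  have hδ0 : 0 < δ := lt_of_le_of_lt (by positivity) hδ1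
  set δ' : ℝ := (δ + ε) / 2 with hδ'
  set ρ : ℝ := min ((δ - D * θ) / (D + 1)) ((1 - (D + 1) * θ) / (2 * (D + 1))) with hρ
  have hρ0 : 0 < ρ := lt_min (div_pos (by linarith) (by linarith))
    (div_pos (by linarith) (by linarith))
  have hρ1 : ρ * (D + 1) ≤ δ - D * θ := by
    rw [← le_div_iff₀ (by linarith)]
    exact min_le_left _ _
  have hρ2 : ρ * (2 * (D + 1)) ≤ 1 - (D + 1) * θ := by
    rw [← le_div_iff₀ (by linarith)]
    exact min_le_right _ _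
  set θ' : ℝ := θ + ρ with hθ'
  have hDθ' : D * θ' ≤ δ := by
    rw [hθ']
    nlinarith
  set τ : ℝ := (1 - (D + 1) * θ') / 2 with hτ
  have hτ0 : 0 < τ := by
    rw [hτ, hθ']
    nlinarith
  have hτ1 : τ < 1 := by
    rw [hτ]
    have : 0 < (D + 1) * θ' := by positivity
    linarith
  have hθ1 : θ < 1 := by nlinarith
  obtain ⟨N1, h1⟩ := evA δ γ τ hδ0 (by linarith [hδ2.2]) hτ0
  obtain ⟨N2, h2⟩ := evB θ δ (δ' - δ) hθ1 hθ (by rw [hδ']; linarith [hδ2.1])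
  obtain ⟨N3, h3⟩ := primes_small D θ θ' hθ (by rw [hθ']; linarith)
  obtain ⟨N4, h4⟩ := rpow_large hτ0 ((D : ℝ) + 3)
  obtain ⟨N5, h5⟩ := asyH κ C δ' ε (by rw [hδ']; linarith [hδ2.1]) (by rw [hδ']; linarith [hδ2.1])
  refine ⟨max (max (max N1 N2) (max N3 N4)) (max N5 (D + 8)), fun N hN J hJ P hP hPD hPC H hH b
    hb => ?_⟩
  have hN1 := h1 N (by omega)
  have hN2 := h2 N (by omega)
  have hN3 := h3 N (by omega) J hJ
  have hN4 := h4 N (by omega)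
  have hN5 := h5 N (by omega) H hH b hb
  have hN8 : D + 8 ≤ N := by omega
  have hNr : (8 : ℝ) ≤ N := by
    have : 8 ≤ N := by omega
    exact_mod_cast this
  have hNp : (0 : ℝ) < N := by linarith
  have hNone : (1 : ℝ) ≤ N := by linarith
  have hl2 : 0 < Real.log 2 := Real.log_pos (by norm_num)
  have hlN : 0 ≤ Real.log N := Real.log_nonneg (by linarith)
  set Y : ℝ := (N : ℝ) ^ θ' with hY
  have hY1 : 1 ≤ Y := Real.one_le_rpow hNone (by linarith)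
  have hx1 : 1 ≤ ⌊Y⌋₊ := by
    rw [Nat.one_le_floor_iff]
    exact hY1
  set X : ℝ := (N : ℝ) ^ δ with hX
  have hX1 : 1 ≤ X := Real.one_le_rpow hNone hδ0.le
  set L : ℝ := δ * Real.log N / Real.log 2 with hL
  have hL0 : 0 ≤ L := by positivity
  set K : ℕ := ⌊Y⌋₊ ^ D with hK
  have hK1 : 1 ≤ K := Nat.one_le_pow _ _ hx1
  have hK1r : (1 : ℝ) ≤ K := by exact_mod_cast hK1
  have hKY : (K : ℝ) ≤ Y ^ D := by
    rw [hK]
    push_cast
    exact pow_le_pow_left₀ (Nat.cast_nonneg _) (Nat.floor_le (by linarith)) _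
  have hYD : Y ^ D = (N : ℝ) ^ (D * θ') := by
    rw [hY, ← Real.rpow_natCast, ← Real.rpow_mul hNp.le, mul_comm]
  have hKX : (K : ℝ) ≤ X := by
    rw [hYD] at hKY
    exact hKY.trans (Real.rpow_le_rpow_of_exponent_le hNone hDθ')
  set P' : ℝ := (N : ℝ) ^ (1 - τ) with hP'
  have h2τ : (N : ℝ) ^ ((D + 1) * θ') * (N : ℝ) ^ τ = P' := by
    rw [← Real.rpow_add hNp, hP']
    congr 1
    rw [hτ]
    ring
  have hτN : (1 : ℝ) ≤ (N : ℝ) ^ τ := Real.one_le_rpow hNone hτ0.le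
  have hKJ : (K : ℝ) * (D + 2 + J) ≤ P' := by
    have hJY : (J : ℝ) ≤ Y := hJ.trans (Real.rpow_le_rpow_of_exponent_le hNone (by
      rw [hθ']
      linarith))
    calc (K : ℝ) * (D + 2 + J) ≤ Y ^ D * ((D + 3) * Y) := by
          refine mul_le_mul hKY ?_ (by positivity) (by positivity)
          nlinarith
      _ = (D + 3) * (N : ℝ) ^ ((D + 1) * θ') := by
          rw [hYD]
          have h6 : (N : ℝ) ^ ((D + 1) * θ') = (N : ℝ) ^ (D * θ') * Y := by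
            rw [hY, ← Real.rpow_add hNp]
            congr 1
            ring
          rw [h6]
          ring
      _ ≤ (N : ℝ) ^ τ * (N : ℝ) ^ ((D + 1) * θ') :=
          mul_le_mul_of_nonneg_right hN4 (by positivity)
      _ = P' := by rw [mul_comm, h2τ]
  have hKP : (K : ℝ) ≤ P' := by
    have h6 : (K : ℝ) * 1 ≤ (K : ℝ) * (D + 2 + J) := by
      refine mul_le_mul_of_nonneg_left ?_ (by linarith)
      have : (0 : ℝ) ≤ J := Nat.cast_nonneg J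
      linarith
    linarith
  have hKγ : (K : ℝ) * (N : ℝ) ^ γ ≤ (N : ℝ) ^ (δ + γ) := by
    rw [Real.rpow_add hNp]
    exact mul_le_mul_of_nonneg_right hKX (Real.rpow_nonneg hNp.le _)
  have hP'0 : 0 ≤ P' := Real.rpow_nonneg hNp.le _
  have hmain0 : (K : ℝ) * (3 + (N : ℝ) ^ γ + (D + 2 + J) * (1 + L)) ≤ N := by
    have e1 : (K : ℝ) * ((D + 2 + J) * (1 + L)) ≤ P' * (1 + L) := by
      rw [← mul_assoc]
      exact mul_le_mul_of_nonneg_right hKJ (by linarith)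
    have e2 : (K : ℝ) * (3 + (N : ℝ) ^ γ + (D + 2 + J) * (1 + L)) =
        3 * K + K * (N : ℝ) ^ γ + K * ((D + 2 + J) * (1 + L)) := by ring
    have e3 : (21 + 8 * L) * P' = 3 * P' + P' * (1 + L) + (17 + 7 * L) * P' := by ring
    have e4 : 0 ≤ (17 + 7 * L) * P' := by positivity
    rw [e2]
    linarith
  set Cs : ℝ := (2 : ℝ) ^ ((N : ℝ) ^ γ) with hCs
  have hCs1 : 1 ≤ Cs := Real.one_le_rpow (by norm_num) (Real.rpow_nonneg hNp.le _)
  have hcond : 4 * Cs * ((K : ℝ) + 1) ^ (D + 2 + J) ≤ 2 ^ (N / K) := by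
    have hy2 : (2 : ℝ) ^ (1 + L) = 2 * X := by
      rw [Real.rpow_add two_pos, Real.rpow_one, hX]
      congr 1
      rw [Real.rpow_def_of_pos two_pos, Real.rpow_def_of_pos hNp, hL]
      congr 1
      field_simp
    have e3 : ((K : ℝ) + 1) ≤ (2 : ℝ) ^ (1 + L) := by
      rw [hy2]
      linarith
    have e4 : ((K : ℝ) + 1) ^ (D + 2 + J) ≤ (2 : ℝ) ^ ((D + 2 + J) * (1 + L)) := by
      refine (pow_le_pow_left₀ (by linarith) e3 _).trans ?_
      rw [← Real.rpow_natCast, ← Real.rpow_mul two_pos.le]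
      refine Real.rpow_le_rpow_of_exponent_le one_le_two (le_of_eq ?_)
      push_cast
      ring
    have e5 : 4 * Cs = (2 : ℝ) ^ (2 + (N : ℝ) ^ γ) := by
      rw [hCs, Real.rpow_add two_pos]
      norm_num
    have e6 : (2 : ℝ) ^ (2 + (N : ℝ) ^ γ + (D + 2 + J) * (1 + L)) ≤ 2 ^ (N / K) := by
      rw [← Real.rpow_natCast 2 (N / K)]
      refine Real.rpow_le_rpow_of_exponent_le one_le_two ?_
      have e7 : (N : ℝ) < (K : ℝ) * (((N / K : ℕ) : ℝ) + 1) := by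
        have e8 := Nat.lt_mul_div_succ N (by omega : 0 < K)
        exact_mod_cast e8
      have e10 : (K : ℝ) * (3 + (N : ℝ) ^ γ + (D + 2 + J) * (1 + L)) ≤
          (K : ℝ) * (((N / K : ℕ) : ℝ) + 1) := by linarith
      have e12 := le_of_mul_le_mul_left e10 (by linarith)
      linarith
    refine le_trans ?_ e6
    rw [Real.rpow_add two_pos, ← e5]
    exact mul_le_mul_of_nonneg_left e4 (by positivity)
  have hmain := explicitP N D ⌊Y⌋₊ P hP hPD hx1 hN3 Cs hCs1 hPC (by omega) hcond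
  rw [← hK] at hmain
  have h6 : 2 * ((N : ℝ) ^ (δ' * N))⁻¹ ≤ (2 * (K : ℝ) ^ (N + J))⁻¹ := by
    have e1 : (K : ℝ) ^ (N + J) ≤ (N : ℝ) ^ (δ * (N + (N : ℝ) ^ θ)) := by
      calc (K : ℝ) ^ (N + J) ≤ X ^ (N + J) := pow_le_pow_left₀ (by linarith) hKX _
        _ = X ^ (((N + J : ℕ) : ℝ)) := (Real.rpow_natCast _ _).symm
        _ ≤ X ^ ((N : ℝ) + (N : ℝ) ^ θ) := by
            refine Real.rpow_le_rpow_of_exponent_le hX1 ?_
            push_cast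
            linarith
        _ = _ := by rw [hX, ← Real.rpow_mul hNp.le]
    have e2 : 4 * (K : ℝ) ^ (N + J) ≤ (N : ℝ) ^ (δ' * N) := by
      calc 4 * (K : ℝ) ^ (N + J) ≤ (N : ℝ) ^ (2 : ℝ) * (N : ℝ) ^ (δ * (N + (N : ℝ) ^ θ)) := by
            refine mul_le_mul ?_ e1 (by positivity) (by positivity)
            rw [Real.rpow_two]
            nlinarith
        _ = (N : ℝ) ^ (2 + δ * (N + (N : ℝ) ^ θ)) := by rw [← Real.rpow_add hNp]
        _ ≤ _ := by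
            refine Real.rpow_le_rpow_of_exponent_le (by linarith) ?_
            nlinarith
    have e3 : 0 < (K : ℝ) ^ (N + J) := by positivity
    calc 2 * ((N : ℝ) ^ (δ' * N))⁻¹ ≤ 2 * (4 * (K : ℝ) ^ (N + J))⁻¹ := by
          refine mul_le_mul_of_nonneg_left ?_ two_pos.le
          exact inv_anti₀ (by positivity) e2
      _ = (2 * (K : ℝ) ^ (N + J))⁻¹ := by
          rw [mul_inv, mul_inv]
          ring
  have hPd : 0 < (N : ℝ) ^ (δ' * N) := Real.rpow_pos_of_pos hNp _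
  have h7 : ((N : ℝ) ^ (ε * N))⁻¹ < ((N : ℝ) ^ (δ' * N))⁻¹ := by
    refine inv_strictAnti₀ hPd ?_
    refine Real.rpow_lt_rpow_of_exponent_lt (by linarith) ?_
    have : δ' < ε := by rw [hδ']; linarith [hδ2.1]
    nlinarith
  have h8 := abs_sub_abs_le_abs_sub
    (MvPolynomial.aeval (fun i : Fin (J + 1) => zv (N + (i : ℕ))) P : ℝ) (∑ h ∈ H, b h * mz h)
  linarith

end Pool.Agent.R404.DZ
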