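import Pool.Agent.R404.DZ.K

/-!
# Products of zeta values of a given weight: choice of the parameters
-/

set_option autoImplicit false

namespace Pool.Agent.R404.DZ

open Finset
open Pool.Agent.Y760.ZG (mz)
open Pool.Agent.Y777.AM (ht)

/-- a given number of factors -/
theorem asyD (D : ℕ) (hD : 2 ≤ D) (γ ε κ C η : ℝ) (hη : 0 < η) (hη1 : η * (D + 1) < D - 1)
    (hγ : γ + D * η / (D - 1) < 1) (hε : η / (D - 1) < ε) :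
    ∃ k0 : ℕ, ∀ k : ℕ, k0 ≤ k → ∃ T : Finset (Fin D → ℕ), (k : ℝ) ^ η ≤ T.card ∧
      (∀ n ∈ T, StrictMono n ∧ ∑ j, n j = k ∧ ∀ j, k ≤ 2 * D * n j) ∧
      ∀ c : (Fin D → ℕ) → ℤ, (∃ n ∈ T, c n ≠ 0) →
      ∑ n ∈ T, |(c n : ℝ)| ≤ (2 : ℝ) ^ ((k : ℝ) ^ γ) →
      ∀ H : Finset (List ℕ), (∀ h ∈ H, (∀ m ∈ h, 1 ≤ m) ∧ (∀ x ∈ h.head?, 2 ≤ x) ∧
        (h.sum : ℝ) ≤ κ * k ∧ ε * k ≤ ht h) → ∀ b : List ℕ → ℝ, (∀ h ∈ H, |b h| ≤ C ^ k) →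
      ((k : ℝ) ^ (ε * k))⁻¹ <
        |∑ n ∈ T, (c n : ℝ) * ∏ j, zv (n j) - ∑ h ∈ H, b h * mz h| := by
  have hDr : (2 : ℝ) ≤ D := by exact_mod_cast hD
  have hD1 : (0 : ℝ) < D - 1 := by linarith
  have h1 : η / (D - 1) < 1 / (D + 1) := by
    rw [div_lt_div_iff₀ hD1 (by linarith)]
    linarith
  have h2 : η / (D - 1) < (1 - γ) / D := by
    rw [lt_div_iff₀ (by linarith)]
    have e1 : η / (D - 1) * D = D * η / (D - 1) := by ring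
    rw [e1]
    linarith
  obtain ⟨θ, h3, h4⟩ := exists_between (lt_min (lt_min h1 h2) hε)
  rw [lt_min_iff, lt_min_iff] at h4
  have h5 : 0 < η / (D - 1) := div_pos hη hD1
  refine asyK D hD θ γ ε κ C η (h5.trans h3) ?_ ?_ h4.2 hη ?_
  · have := (lt_div_iff₀ (by linarith : (0 : ℝ) < D + 1)).1 h4.1.1
    linarith
  · have := (lt_div_iff₀ (by linarith : (0 : ℝ) < D)).1 h4.1.2
    linarith
  · have := (div_lt_iff₀ hD1).1 h3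
    linarith

/-- **arbitrarily many factors** -/
theorem asyE (γ ε κ C η : ℝ) (hη : 0 < η) (hη1 : η < 1) (hγ : γ + η < 1) (hε : 0 < ε) :
    ∃ D k0 : ℕ, ∀ k : ℕ, k0 ≤ k → ∃ T : Finset (Fin D → ℕ), (k : ℝ) ^ η ≤ T.card ∧
      (∀ n ∈ T, StrictMono n ∧ ∑ j, n j = k ∧ ∀ j, k ≤ 2 * D * n j) ∧
      ∀ c : (Fin D → ℕ) → ℤ, (∃ n ∈ T, c n ≠ 0) →
      ∑ n ∈ T, |(c n : ℝ)| ≤ (2 : ℝ) ^ ((k : ℝ) ^ γ) →
      ∀ H : Finset (List ℕ), (∀ h ∈ H, (∀ m ∈ h, 1 ≤ m) ∧ (∀ x ∈ h.head?, 2 ≤ x) ∧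
        (h.sum : ℝ) ≤ κ * k ∧ ε * k ≤ ht h) → ∀ b : List ℕ → ℝ, (∀ h ∈ H, |b h| ≤ C ^ k) →
      ((k : ℝ) ^ (ε * k))⁻¹ <
        |∑ n ∈ T, (c n : ℝ) * ∏ j, zv (n j) - ∑ h ∈ H, b h * mz h| := by
  set u : ℝ := min 1 (1 - γ) with hu
  have hu0 : η < u := lt_min hη1 (by linarith)
  set w : ℝ := min (u - η) ε with hw
  have hw0 : 0 < w := lt_min (by linarith) hε
  obtain ⟨D0, hD0⟩ := exists_nat_gt (4 / w)
  set D : ℕ := D0 + 2 with hD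
  have hDr : (D : ℝ) = D0 + 2 := by rw [hD]; push_cast; rfl
  have hD0' : (0 : ℝ) ≤ D0 := Nat.cast_nonneg _
  have h1 : 4 < w * D0 := by
    rw [div_lt_iff₀ hw0] at hD0
    linarith
  have hu1 : u ≤ 1 := min_le_left _ _
  have hu2 : u ≤ 1 - γ := min_le_right _ _
  have hwu : w ≤ u - η := min_le_left _ _
  have hwε : w ≤ ε := min_le_right _ _
  have hw1 : w * D0 ≤ (u - η) * D0 := mul_le_mul_of_nonneg_right hwu hD0'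
  have hw2 : w * D0 ≤ ε * D0 := mul_le_mul_of_nonneg_right hwε hD0'
  have hD1 : (0 : ℝ) < (D : ℝ) - 1 := by rw [hDr]; linarith
  have key : D * η / (D - 1) < u := by
    rw [div_lt_iff₀ hD1, hDr]
    nlinarith
  obtain ⟨k0, h0⟩ := asyD D (by omega) γ ε κ C η hη (by
    rw [hDr]
    nlinarith) (by linarith) (by
    rw [div_lt_iff₀ hD1, hDr]
    nlinarith)
  exact ⟨D, k0, h0⟩

end Pool.Agent.R404.DZ
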