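import Pool.Agent.R404.DZ.C

/-!
# Products of zeta values of a given weight
-/

set_option autoImplicit false

namespace Pool.Agent.R404.DZ

open Finset
open Pool.Agent.R404.MZ (rpow_large)
open Pool.Agent.Y760.ZG (mz)
open Pool.Agent.Y777.AM (ht)

section

variable {D s : ℕ}

/-- the monomial of a tuple -/
noncomputable def mon (i : Fin D → Fin (s + 1)) : Fin (s + 1) →₀ ℕ := ∑ j, Finsupp.single (i j) 1

lemma mon_supp (i : Fin D → Fin (s + 1)) (a : Fin (s + 1)) : mon i a ≠ 0 ↔ ∃ j, i j = a := by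
  classical
  unfold mon
  rw [Finsupp.finsetSum_apply]
  constructor
  · intro h
    obtain ⟨j, _, hj⟩ := Finset.exists_ne_zero_of_sum_ne_zero h
    refine ⟨j, ?_⟩
    by_contra hne
    exact hj (Finsupp.single_eq_of_ne (fun h' => hne h'.symm))
  · rintro ⟨j, hj⟩ h
    rw [Finset.sum_eq_zero_iff] at h
    have h1 := h j (Finset.mem_univ j)
    rw [hj, Finsupp.single_eq_same] at h1
    exact one_ne_zero h1

lemma mon_inj {i i' : Fin D → Fin (s + 1)} (hi : StrictMono i) (hi' : StrictMono i')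
    (h : mon i = mon i') : i = i' := by
  have h1 : Set.range i = Set.range i' := by
    ext a
    rw [Set.mem_range, Set.mem_range, ← mon_supp, ← mon_supp, h]
  exact (hi.range_inj hi').1 h1

lemma mon_degree (i : Fin D → Fin (s + 1)) : (mon i).sum (fun _ e => e) = D := by
  classical
  rw [Finsupp.sum_fintype _ _ (fun _ => rfl)]
  unfold mon
  simp only [Finsupp.finsetSum_apply]
  rw [Finset.sum_comm]
  simp

/-- the polynomial of a combination -/
noncomputable def pol (T : Finset (Fin D → Fin (s + 1))) (c : (Fin D → Fin (s + 1)) → ℤ) :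
    MvPolynomial (Fin (s + 1)) ℤ := ∑ i ∈ T, MvPolynomial.monomial (mon i) (c i)

lemma pol_coeff {T : Finset (Fin D → Fin (s + 1))} (hT : ∀ i ∈ T, StrictMono i)
    (c : (Fin D → Fin (s + 1)) → ℤ) {i : Fin D → Fin (s + 1)} (hi : i ∈ T) :
    (pol T c).coeff (mon i) = c i := by
  classical
  unfold pol
  rw [MvPolynomial.coeff_sum, Finset.sum_eq_single i]
  · rw [MvPolynomial.coeff_monomial, if_pos rfl]
  · intro i' hi' hne
    rw [MvPolynomial.coeff_monomial, if_neg]
    intro h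
    exact hne (mon_inj (hT i' hi') (hT i hi) h)
  · intro h
    exact absurd hi h

lemma pol_supp {T : Finset (Fin D → Fin (s + 1))} (c : (Fin D → Fin (s + 1)) → ℤ) :
    (pol T c).support ⊆ T.image mon := by
  classical
  intro M hM
  unfold pol at hM
  have h1 := MvPolynomial.support_sum hM
  rw [Finset.mem_biUnion] at h1
  obtain ⟨i, hi, h2⟩ := h1
  have h3 := MvPolynomial.support_monomial_subset h2
  rw [Finset.mem_singleton] at h3
  rw [h3]
  exact Finset.mem_image_of_mem _ hi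

lemma pol_ne {T : Finset (Fin D → Fin (s + 1))} (hT : ∀ i ∈ T, StrictMono i)
    {c : (Fin D → Fin (s + 1)) → ℤ} (hc : ∃ i ∈ T, c i ≠ 0) : pol T c ≠ 0 := by
  obtain ⟨i, hi, h⟩ := hc
  intro h0
  apply h
  rw [← pol_coeff hT c hi, h0, MvPolynomial.coeff_zero]

lemma pol_degree {T : Finset (Fin D → Fin (s + 1))} (c : (Fin D → Fin (s + 1)) → ℤ) :
    (pol T c).totalDegree ≤ D := by
  classical
  refine Finset.sup_le fun M hM => ?_
  obtain ⟨i, _, rfl⟩ := Finset.mem_image.1 (pol_supp c hM)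
  exact (mon_degree i).le

lemma pol_length {T : Finset (Fin D → Fin (s + 1))} (hT : ∀ i ∈ T, StrictMono i)
    (c : (Fin D → Fin (s + 1)) → ℤ) :
    ∑ M ∈ (pol T c).support, |(((pol T c).coeff M : ℤ) : ℝ)| ≤ ∑ i ∈ T, |(c i : ℝ)| := by
  classical
  calc ∑ M ∈ (pol T c).support, |(((pol T c).coeff M : ℤ) : ℝ)|
      ≤ ∑ M ∈ T.image mon, |(((pol T c).coeff M : ℤ) : ℝ)| :=
        Finset.sum_le_sum_of_subset_of_nonneg (pol_supp c) fun _ _ _ => abs_nonneg _
    _ = ∑ i ∈ T, |(((pol T c).coeff (mon i) : ℤ) : ℝ)| :=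
        Finset.sum_image fun i hi i' hi' h => mon_inj (hT i hi) (hT i' hi') h
    _ = _ := Finset.sum_congr rfl fun i hi => by rw [pol_coeff hT c hi]

lemma pol_eval (T : Finset (Fin D → Fin (s + 1))) (c : (Fin D → Fin (s + 1)) → ℤ)
    (z : Fin (s + 1) → ℝ) :
    (MvPolynomial.aeval z (pol T c) : ℝ) = ∑ i ∈ T, (c i : ℝ) * ∏ j, z (i j) := by
  classical
  unfold pol
  rw [map_sum]
  refine Finset.sum_congr rfl fun i _ => ?_
  rw [MvPolynomial.aeval_monomial, eq_intCast]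
  congr 1
  unfold mon
  rw [← Finsupp.prod_finsetSum_index (fun _ => pow_zero _) (fun _ _ _ => pow_add _ _ _)]
  refine Finset.prod_congr rfl fun j _ => ?_
  show (Finsupp.single (i j) 1).prod (fun a e => z a ^ e) = z (i j)
  rw [Finsupp.prod_single_index (h := fun a e => z a ^ e) (pow_zero _), pow_one]

end

/-- the tuples of weight `k` -/
lemma tuples (D : ℕ) (hD : 1 ≤ D) (L s : ℕ) (hL : D * D * L ≤ s) :
    ∃ T : Finset (Fin D → Fin (s + 1)), T.card = L ^ (D - 1) ∧
      ∀ i ∈ T, StrictMono i ∧ ∑ j, (i j : ℕ) = s := by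
  classical
  obtain ⟨d, rfl⟩ := Nat.exists_eq_add_of_le' hD
  rw [Nat.add_sub_cancel]
  set f : (Fin d → Fin L) → Fin (d + 1) → ℕ := fun g =>
    Fin.snoc (fun j : Fin d => (j : ℕ) * L + (g j : ℕ))
      (s - ∑ j : Fin d, ((j : ℕ) * L + (g j : ℕ))) with hf
  have hlast : ∀ g, f g (Fin.last d) = s - ∑ j : Fin d, ((j : ℕ) * L + (g j : ℕ)) := fun g => by
    rw [hf]
    simp [Fin.snoc_last]
  have hcast : ∀ g (j : Fin d), f g j.castSucc = (j : ℕ) * L + (g j : ℕ) := fun g j => by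
    rw [hf]
    simp [Fin.snoc_castSucc]
  have hblock : ∀ (g : Fin d → Fin L) (j : Fin d), (j : ℕ) * L + (g j : ℕ) < d * L := by
    intro g j
    have h1 := (g j).2
    have h2 : ((j : ℕ) + 1) * L ≤ d * L := Nat.mul_le_mul_right _ j.2
    have h3 : ((j : ℕ) + 1) * L = (j : ℕ) * L + L := by ring
    omega
  have hsum : ∀ g : Fin d → Fin L, ∑ j : Fin d, ((j : ℕ) * L + (g j : ℕ)) ≤ d * (d * L) := by
    intro g
    calc ∑ j : Fin d, ((j : ℕ) * L + (g j : ℕ)) ≤ ∑ _j : Fin d, d * L :=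
          Finset.sum_le_sum fun j _ => (hblock g j).le
      _ = d * (d * L) := by simp
  have hbig : ∀ g, d * L ≤ f g (Fin.last d) := by
    intro g
    rw [hlast]
    have h1 := hsum g
    have h2 : (d + 1) * (d + 1) * L = d * (d * L) + 2 * (d * L) + L := by ring
    omega
  have hle : ∀ g j, f g j < s + 1 := by
    intro g j
    refine Fin.lastCases ?_ (fun j => ?_) j
    · rw [hlast]
      omega
    · rw [hcast]
      have h1 := hblock g j
      have h2 : (d + 1) * (d + 1) * L = d * (d * L) + 2 * (d * L) + L := by ring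
      omega
  have hmono : ∀ g, StrictMono (f g) := by
    intro g
    rw [Fin.strictMono_iff_lt_succ]
    intro j
    rw [hcast]
    by_cases hj : (j : ℕ) + 1 < d
    · have h1 : j.succ = (⟨(j : ℕ) + 1, hj⟩ : Fin d).castSucc := by
        apply Fin.ext
        simp
      rw [h1, hcast]
      simp only
      have h2 := (g j).2
      have h3 : ((j : ℕ) + 1) * L = (j : ℕ) * L + L := by ring
      omega
    · have h1 : j.succ = Fin.last d := by
        apply Fin.ext
        have := j.2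
        simp
        omega
      rw [h1]
      exact (hblock g j).trans_le (hbig g)
  have htot : ∀ g, ∑ j, f g j = s := by
    intro g
    rw [Fin.sum_univ_castSucc, hlast]
    simp only [hcast]
    have h1 := hsum g
    have h2 : (d + 1) * (d + 1) * L = d * (d * L) + 2 * (d * L) + L := by ring
    omega
  set F : (Fin d → Fin L) → Fin (d + 1) → Fin (s + 1) := fun g j => ⟨f g j, hle g j⟩ with hF
  have hinj : Function.Injective F := by
    intro g g' h
    funext j
    have h1 : f g j.castSucc = f g' j.castSucc := by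
      have h2 := congrFun h j.castSucc
      exact Fin.ext_iff.1 h2
    rw [hcast, hcast] at h1
    apply Fin.ext
    omega
  refine ⟨Finset.univ.image F, ?_, fun i hi => ?_⟩
  · rw [Finset.card_image_of_injective _ hinj]
    simp
  · obtain ⟨g, _, rfl⟩ := Finset.mem_image.1 hi
    exact ⟨fun a b hab => hmono g hab, htot g⟩

/-- **many products of a given weight** -/
theorem asyK (D : ℕ) (hD : 2 ≤ D) (θ γ ε κ C η : ℝ) (hθ : 0 < θ) (hθD : (D + 1) * θ < 1)
    (hγ : γ + D * θ < 1) (hε : θ < ε) (hη : 0 < η) (hηθ : η < (D - 1) * θ) :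
    ∃ k0 : ℕ, ∀ k : ℕ, k0 ≤ k → ∃ T : Finset (Fin D → ℕ), (k : ℝ) ^ η ≤ T.card ∧
      (∀ n ∈ T, StrictMono n ∧ ∑ j, n j = k ∧ ∀ j, k ≤ 2 * D * n j) ∧
      ∀ c : (Fin D → ℕ) → ℤ, (∃ n ∈ T, c n ≠ 0) →
      ∑ n ∈ T, |(c n : ℝ)| ≤ (2 : ℝ) ^ ((k : ℝ) ^ γ) →
      ∀ H : Finset (List ℕ), (∀ h ∈ H, (∀ m ∈ h, 1 ≤ m) ∧ (∀ x ∈ h.head?, 2 ≤ x) ∧
        (h.sum : ℝ) ≤ κ * k ∧ ε * k ≤ ht h) → ∀ b : List ℕ → ℝ, (∀ h ∈ H, |b h| ≤ C ^ k) →
      ((k : ℝ) ^ (ε * k))⁻¹ <
        |∑ n ∈ T, (c n : ℝ) * ∏ j, zv (n j) - ∑ h ∈ H, b h * mz h| := by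
  classical
  have hDr : (2 : ℝ) ≤ D := by exact_mod_cast hD
  obtain ⟨θ1, ha1, ha2⟩ := exists_between
    ((div_lt_iff₀ (by linarith : (0 : ℝ) < D - 1)).2 (by linarith : η < θ * (D - 1)))
  rw [div_lt_iff₀ (by linarith)] at ha1
  have hθ10 : 0 < θ1 := by
    by_contra h
    push Not at h
    nlinarith
  obtain ⟨γ', hg1, hg2⟩ := exists_between (max_lt (by linarith : γ < 1 - D * θ)
    (by nlinarith : (0 : ℝ) < 1 - D * θ))
  rw [max_lt_iff] at hg1
  set C' : ℝ := (max 1 |C|) ^ (2 * D) with hC'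
  obtain ⟨N0, h0⟩ := asyP D θ γ' (D * ε) (2 * D * |κ|) C' hθ hθD (by linarith)
    (mul_lt_mul_of_pos_left hε (by linarith))
  have hθ1 : θ < 1 := by nlinarith
  obtain ⟨k1, h1⟩ := rpow_large (e := 1 - θ1) (by linarith) (2 * ((D : ℝ) + 1))
  obtain ⟨k2, h2⟩ := rpow_large (e := θ - θ1) (by linarith) (2 * (D : ℝ) * (D + 1))
  obtain ⟨k3, h3⟩ := rpow_large hθ10 (2 * (1 + (D : ℝ) ^ 2))
  obtain ⟨k4, h4⟩ := rpow_large (e := θ1 * (D - 1) - η) (by linarith)
    ((2 * (D : ℝ) ^ 2) ^ (D - 1))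
  obtain ⟨k5, h5⟩ := rpow_large (e := γ' - γ) (by linarith [hg1.1]) (2 * (D : ℝ))
  refine ⟨max (max (max k1 k2) (max k3 k4)) (max k5 (2 * D * N0 + 1)), fun k hk => ?_⟩
  have g1 := h1 k (by omega)
  have g2 := h2 k (by omega)
  have g3 := h3 k (by omega)
  have g4 := h4 k (by omega)
  have g5 := h5 k (by omega)
  have hkN : 2 * D * N0 + 1 ≤ k := by omega
  have hk1 : (1 : ℝ) ≤ k := by
    have : 1 ≤ k := by omega
    exact_mod_cast this
  have hkp : (0 : ℝ) < k := by linarith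
  set Y : ℝ := (k : ℝ) ^ θ1 with hY
  have hY1 : 1 ≤ Y := Real.one_le_rpow hk1 hθ10.le
  set s0 : ℕ := ⌊Y⌋₊ with hs0
  have hs0le : (s0 : ℝ) ≤ Y := Nat.floor_le (by linarith)
  have hs0lt : Y < (s0 : ℝ) + 1 := Nat.lt_floor_add_one Y
  have hYk : ((D : ℝ) + 1) * Y ≤ k / 2 := by
    have e1 : (k : ℝ) = (k : ℝ) ^ (1 - θ1) * Y := by
      rw [hY, ← Real.rpow_add hkp]
      simp
    have e2 : 2 * ((D : ℝ) + 1) * Y ≤ (k : ℝ) ^ (1 - θ1) * Y :=
      mul_le_mul_of_nonneg_right g1 (by linarith)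
    linarith
  have hs0k : (s0 : ℝ) + D ≤ k / 2 := by nlinarith
  have hs0k' : 2 * (s0 + D) ≤ k := by
    have e1 : (2 : ℝ) * ((s0 : ℝ) + D) ≤ k := by linarith
    exact_mod_cast e1
  set N : ℕ := (k - s0) / D with hN
  set s : ℕ := k - D * N with hs
  have hDpos : 0 < D := by omega
  have hDN : D * N ≤ k - s0 := Nat.mul_div_le _ _
  have hDN2 : k - s0 < D * (N + 1) := Nat.lt_mul_div_succ _ hDpos
  have hmulN : D * (N + 1) = D * N + D := by ring
  have hs1 : s0 ≤ s := by omega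
  have hs2 : s ≤ s0 + D := by omega
  have hks : D * N + s = k := by omega
  have hkDN : k ≤ 2 * D * N := by
    have e1 : 2 * D * N = 2 * (D * N) := by ring
    rw [e1]
    omega
  have hkDNr : (k : ℝ) ≤ 2 * D * N := by exact_mod_cast hkDN
  have hDNk : (D : ℝ) * N ≤ k := by
    have : D * N ≤ k := by omega
    exact_mod_cast this
  have hN0 : N0 ≤ N := by
    by_contra hcon
    push Not at hcon
    have e1 : 2 * D * N ≤ 2 * D * N0 := Nat.mul_le_mul_left _ hcon.le
    omega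
  have hNpos : 0 < N := by
    by_contra hcon
    have e1 : N = 0 := by omega
    rw [e1] at hkDN
    omega
  have hN1 : (1 : ℝ) ≤ N := by exact_mod_cast hNpos
  have hNp : (0 : ℝ) < N := by linarith
  have hkN' : (k : ℝ) / (2 * D) ≤ N := by
    rw [div_le_iff₀ (by linarith)]
    linarith
  have hNk : (N : ℝ) ≤ k := by nlinarith
  have hpow : ∀ e : ℝ, 0 ≤ e → e ≤ 1 → (k : ℝ) ^ e / (2 * D) ≤ (N : ℝ) ^ e := by
    intro e he0 he1
    have e1 : ((k : ℝ) / (2 * D)) ^ e ≤ (N : ℝ) ^ e := Real.rpow_le_rpow (by positivity) hkN' he0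
    refine le_trans ?_ e1
    rw [Real.div_rpow hkp.le (by linarith)]
    refine div_le_div_of_nonneg_left (by positivity) (by positivity) ?_
    calc (2 * (D : ℝ)) ^ e ≤ (2 * (D : ℝ)) ^ (1 : ℝ) :=
          Real.rpow_le_rpow_of_exponent_le (by linarith) he1
      _ = _ := Real.rpow_one _
  have hsN : (s : ℝ) ≤ (N : ℝ) ^ θ := by
    refine le_trans ?_ (hpow θ hθ.le hθ1.le)
    rw [le_div_iff₀ (by linarith)]
    have e1 : (s : ℝ) ≤ s0 + D := by exact_mod_cast hs2
    have e2 : (k : ℝ) ^ θ = (k : ℝ) ^ (θ - θ1) * Y := by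
      rw [hY, ← Real.rpow_add hkp]
      congr 1
      ring
    rw [e2]
    have e3 : 2 * (D : ℝ) * (D + 1) * Y ≤ (k : ℝ) ^ (θ - θ1) * Y :=
      mul_le_mul_of_nonneg_right g2 (by linarith)
    have e4 : (s : ℝ) ≤ (D + 1) * Y := by nlinarith
    nlinarith
  set L : ℕ := s0 / (D * D) with hL
  have hDL : D * D * L ≤ s := (Nat.mul_div_le _ _).trans hs1
  have hLlow : Y / (2 * (D : ℝ) ^ 2) ≤ L := by
    have e1 : s0 < D * D * (L + 1) := Nat.lt_mul_div_succ _ (by positivity)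
    have e2 : (s0 : ℝ) + 1 ≤ (D : ℝ) * D * (L + 1) := by exact_mod_cast e1
    rw [div_le_iff₀ (by positivity)]
    nlinarith
  obtain ⟨T', hT1, hT2⟩ := tuples D (by omega) L s hDL
  set sh : (Fin D → Fin (s + 1)) → Fin D → ℕ := fun i j => N + (i j : ℕ) with hsh
  have hshinj : Function.Injective sh := by
    intro i i' h
    funext j
    have e1 := congrFun h j
    rw [hsh] at e1
    simp only at e1
    apply Fin.ext
    omega
  refine ⟨T'.image sh, ?_, fun n hn => ?_, ?_⟩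
  · rw [Finset.card_image_of_injective _ hshinj, hT1]
    push_cast
    have e1 : (Y / (2 * (D : ℝ) ^ 2)) ^ (D - 1) ≤ (L : ℝ) ^ (D - 1) :=
      pow_le_pow_left₀ (by positivity) hLlow _
    refine le_trans ?_ e1
    rw [div_pow, le_div_iff₀ (by positivity)]
    have e2 : Y ^ (D - 1) = (k : ℝ) ^ (θ1 * (D - 1) - η) * (k : ℝ) ^ η := by
      rw [hY, ← Real.rpow_natCast, ← Real.rpow_mul hkp.le, ← Real.rpow_add hkp]
      congr 1
      rw [Nat.cast_sub (by omega)]
      push_cast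
      ring
    rw [e2, mul_comm]
    exact mul_le_mul_of_nonneg_right g4 (by positivity)
  · obtain ⟨i, hi, rfl⟩ := Finset.mem_image.1 hn
    obtain ⟨e1, e2⟩ := hT2 i hi
    refine ⟨fun a b hab => ?_, ?_, fun j => ?_⟩
    · have e3 : (i a : ℕ) < (i b : ℕ) := e1 hab
      rw [hsh]
      simp only
      omega
    · rw [hsh]
      simp only
      rw [Finset.sum_add_distrib, e2, Finset.sum_const, Finset.card_univ, Fintype.card_fin,
        smul_eq_mul]
      exact hks
    · refine hkDN.trans (Nat.mul_le_mul_left _ ?_)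
      rw [hsh]
      simp only
      omega
  · intro c hc hlen H hH b hb
    set c' : (Fin D → Fin (s + 1)) → ℤ := fun i => c (sh i) with hc'
    have hTm : ∀ i ∈ T', StrictMono i := fun i hi => (hT2 i hi).1
    have hne : pol T' c' ≠ 0 := by
      refine pol_ne hTm ?_
      obtain ⟨n, hn, h⟩ := hc
      obtain ⟨i, hi, rfl⟩ := Finset.mem_image.1 hn
      exact ⟨i, hi, h⟩
    have hlen2 : ∑ M ∈ (pol T' c').support, |(((pol T' c').coeff M : ℤ) : ℝ)| ≤
        (2 : ℝ) ^ ((N : ℝ) ^ γ') := by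
      refine (pol_length hTm c').trans ?_
      have e1 : ∑ i ∈ T', |(c' i : ℝ)| = ∑ n ∈ T'.image sh, |(c n : ℝ)| := by
        rw [Finset.sum_image fun i _ i' _ h => hshinj h]
      rw [e1]
      refine hlen.trans ?_
      refine Real.rpow_le_rpow_of_exponent_le one_le_two ?_
      refine le_trans ?_ (hpow γ' hg1.2.le (by nlinarith))
      rw [le_div_iff₀ (by linarith)]
      have e2 : (k : ℝ) ^ γ' = (k : ℝ) ^ (γ' - γ) * (k : ℝ) ^ γ := by
        rw [← Real.rpow_add hkp]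
        congr 1
        ring
      rw [e2, mul_comm]
      exact mul_le_mul_of_nonneg_right g5 (by positivity)
    have hmain := h0 N hN0 s hsN (pol T' c') hne (pol_degree c') hlen2 H (fun h hh => by
      obtain ⟨f1, f2, f3, f4⟩ := hH h hh
      refine ⟨f1, f2, f3.trans ?_, ?_⟩
      · calc κ * k ≤ |κ| * k := mul_le_mul_of_nonneg_right (le_abs_self κ) hkp.le
          _ ≤ |κ| * (2 * D * N) := mul_le_mul_of_nonneg_left hkDNr (abs_nonneg _)
          _ = _ := by ring
      · refine le_trans ?_ f4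
        have : 0 < ε := hθ.trans hε
        nlinarith) b (fun h hh => by
      refine (hb h hh).trans ((le_abs_self _).trans ?_)
      rw [abs_pow]
      calc |C| ^ k ≤ (max 1 |C|) ^ k := pow_le_pow_left₀ (abs_nonneg _) (le_max_right _ _) _
        _ ≤ (max 1 |C|) ^ (2 * D * N) := pow_le_pow_right₀ (le_max_left _ _) hkDN
        _ = _ := by rw [hC', ← pow_mul])
    rw [pol_eval] at hmain
    have e3 : ∑ n ∈ T'.image sh, (c n : ℝ) * ∏ j, zv (n j) =
        ∑ i ∈ T', (c' i : ℝ) * ∏ j, zv (N + ((i j : Fin (s + 1)) : ℕ)) := by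
      rw [Finset.sum_image fun i _ i' _ h => hshinj h]
    rw [e3]
    refine lt_of_le_of_lt ?_ hmain
    refine inv_anti₀ (Real.rpow_pos_of_pos hNp _) ?_
    have hε0 : 0 < ε := hθ.trans hε
    calc (N : ℝ) ^ (D * ε * N) ≤ (k : ℝ) ^ (D * ε * N) :=
          Real.rpow_le_rpow hNp.le hNk (by positivity)
      _ ≤ (k : ℝ) ^ (ε * k) := by
          refine Real.rpow_le_rpow_of_exponent_le hk1 ?_
          nlinarith

end Pool.Agent.R404.DZ
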